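import Pool.Agent.Helper92.VP.Goals

/-!
# Volumes of sparse polytopes: the slab lemma
-/

namespace Pool.Agent.Helper94.VP

open MeasureTheory

/-- The section of a slab in one direction is an interval. -/
theorem slab_section (α c δ : ℝ) (hα : α ≠ 0) :
    volume {t : ℝ | |α * t + c| ≤ δ} ≤ ENNReal.ofReal (2 * δ / |α|) := by
  have hpos : 0 < |α| := abs_pos.mpr hα
  have hsub : {t : ℝ | |α * t + c| ≤ δ} ⊆ Set.Icc (-c / α - δ / |α|) (-c / α + δ / |α|) := by
    intro t ht
    have ht' : |α * t + c| ≤ δ := ht
    have h1 : |t - (-c / α)| ≤ δ / |α| := by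
      rw [le_div_iff₀ hpos, ← abs_mul]
      have h2 : (t - (-c / α)) * α = α * t + c := by
        field_simp
        ring
      rw [h2]
      exact ht'
    rw [abs_le] at h1
    constructor
    · linarith [h1.1]
    · linarith [h1.2]
  calc volume {t : ℝ | |α * t + c| ≤ δ}
      ≤ volume (Set.Icc (-c / α - δ / |α|) (-c / α + δ / |α|)) := measure_mono hsub
    _ = ENNReal.ofReal (2 * δ / |α|) := by
        rw [Real.volume_Icc]
        apply congrArg
        ring

/-- SLAB. A slab has small volume in a box. -/
theorem slab : Pool.Agent.Helper92.VP.SlabStmt := by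
  intro n l u hlu a b δ J haJ hδ
  cases n with
  | zero => exact J.elim0
  | succ m =>
    set e := MeasurableEquiv.piFinSuccAbove (fun _ : Fin (m + 1) => ℝ) J with he
    have hmp : MeasurePreserving e volume volume :=
      volume_preserving_piFinSuccAbove (fun _ : Fin (m + 1) => ℝ) J
    set B : Set (Fin m → ℝ) :=
      Set.Icc (fun i => l (J.succAbove i)) (fun i => u (J.succAbove i)) with hB
    set T : Set (ℝ × (Fin m → ℝ)) :=
      {p | p.2 ∈ B ∧ |a J * p.1 + (∑ i, a (J.succAbove i) * p.2 i - b)| ≤ δ} with hT
    have hTmeas : MeasurableSet T := by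
      have h1 : MeasurableSet {p : ℝ × (Fin m → ℝ) | p.2 ∈ B} :=
        measurable_snd measurableSet_Icc
      have h2 : IsClosed {p : ℝ × (Fin m → ℝ) |
          |a J * p.1 + (∑ i, a (J.succAbove i) * p.2 i - b)| ≤ δ} := by
        apply isClosed_le
        · fun_prop
        · exact continuous_const
      exact h1.inter h2.measurableSet
    have hsub : {x : Fin (m + 1) → ℝ | (∀ j, l j ≤ x j ∧ x j ≤ u j) ∧
        |∑ j, a j * x j - b| ≤ δ} ⊆ e ⁻¹' T := by
      rintro x ⟨hx1, hx2⟩
      have h1 : e x = (x J, fun i => x (J.succAbove i)) := rfl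
      show e x ∈ T
      rw [h1]
      refine ⟨⟨fun i => (hx1 _).1, fun i => (hx1 _).2⟩, ?_⟩
      show |a J * x J + (∑ i, a (J.succAbove i) * x (J.succAbove i) - b)| ≤ δ
      rw [Fin.sum_univ_succAbove _ J] at hx2
      have h3 : a J * x J + (∑ i, a (J.succAbove i) * x (J.succAbove i) - b) =
          a J * x J + ∑ i, a (J.succAbove i) * x (J.succAbove i) - b := by ring
      rw [h3]
      exact hx2
    have hprod : ∏ j ∈ Finset.univ.erase J, (u j - l j) =
        ∏ i, (u (J.succAbove i) - l (J.succAbove i)) := by
      have h1 : (u J - l J) * ∏ j ∈ Finset.univ.erase J, (u j - l j) = ∏ j, (u j - l j) :=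
        Finset.mul_prod_erase Finset.univ (fun j => u j - l j) (Finset.mem_univ J)
      have h2 : ∏ j, (u j - l j) =
          (u J - l J) * ∏ i, (u (J.succAbove i) - l (J.succAbove i)) :=
        Fin.prod_univ_succAbove _ J
      have h3 : u J - l J ≠ 0 := (sub_pos.mpr (hlu J)).ne'
      exact mul_left_cancel₀ h3 (h1.trans h2)
    calc volume {x : Fin (m + 1) → ℝ | (∀ j, l j ≤ x j ∧ x j ≤ u j) ∧
          |∑ j, a j * x j - b| ≤ δ}
        ≤ volume (e ⁻¹' T) := measure_mono hsub
      _ = volume T := hmp.measure_preimage hTmeas.nullMeasurableSet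
      _ = ∫⁻ y : Fin m → ℝ, volume ((fun t : ℝ => (t, y)) ⁻¹' T) := by
          rw [Measure.volume_eq_prod, Measure.prod_apply_symm hTmeas]
      _ ≤ ∫⁻ y : Fin m → ℝ, B.indicator (fun _ => ENNReal.ofReal (2 * δ / |a J|)) y := by
          apply lintegral_mono
          intro y
          by_cases hy : y ∈ B
          · have h1 : B.indicator (fun _ => ENNReal.ofReal (2 * δ / |a J|)) y =
                ENNReal.ofReal (2 * δ / |a J|) := Set.indicator_of_mem hy _
            show volume ((fun t : ℝ => (t, y)) ⁻¹' T) ≤
              B.indicator (fun _ => ENNReal.ofReal (2 * δ / |a J|)) y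
            rw [h1]
            refine le_trans (measure_mono ?_)
              (slab_section (a J) (∑ i, a (J.succAbove i) * y i - b) δ haJ)
            intro t ht
            exact ht.2
          · show volume ((fun t : ℝ => (t, y)) ⁻¹' T) ≤
              B.indicator (fun _ => ENNReal.ofReal (2 * δ / |a J|)) y
            have h2 : (fun t : ℝ => (t, y)) ⁻¹' T = ∅ := by
              ext t
              constructor
              · intro ht
                exact absurd ht.1 hy
              · intro ht
                exact absurd ht (Set.notMem_empty t)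
            rw [h2, measure_empty]
            exact zero_le
      _ = ENNReal.ofReal (2 * δ / |a J|) * volume B := by
          rw [lintegral_indicator measurableSet_Icc, setLIntegral_const]
      _ = ENNReal.ofReal (2 * δ / |a J| * ∏ j ∈ Finset.univ.erase J, (u j - l j)) := by
          rw [hprod, ENNReal.ofReal_mul (div_nonneg (by linarith) (abs_nonneg _)),
            Real.volume_Icc_pi, ENNReal.ofReal_prod_of_nonneg]
          intro i _
          exact (sub_pos.mpr (hlu _)).le

end Pool.Agent.Helper94.VP
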